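import Mathlib
import Pool.Agent.P8H87.V3Stmt
import Pool.Agent.P8H87.V3Main

/-!
# The Bodirsky-Pinsker conjecture reduces to uniform hypergraphs
-/

open Pool.Agent.P8H87 Pool.Agent.W994.AR Pool.Agent.NPC

namespace Pool.Agent.P8H87.Old.UniformHypergraphs

/-- For every `k ≥ 2`, the Bodirsky-Pinsker conjecture is equivalent to its restriction to the
templates which are `(k + 1)`-uniform hypergraphs, in a `k`-transitive structure without
algebraicity, such that every satisfiable instance has an injective solution. -/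
theorem result (k : ℕ) (hk : 2 ≤ k) : BodirskyPinsker ↔ V3.BodirskyPinskerHypergraph k := by
  constructor
  · intro h B σ _ _ _ ar 𝔹 hH hF _ _ r _ _ _ hK3
    exact h B σ ar 𝔹 hH hF 1 (fun _ => r) (fun a b _ => Subsingleton.elim a b) hK3
  · intro h B σ _ _ _ ar 𝔹 hH hF n f _ hK3
    obtain ⟨Ω, _, _, σ', _, ar', 𝔻, r, h1, h2, h3, h4, h5, h6, h7, h8, h9⟩ :=
      V3.construction 𝔹 hH hF f k hk
    exact h9 (h Ω σ' ar' 𝔻 h1 h2 h3 h4 r h5 h6 h7 (fun h10 => hK3 (h8 h10)))

end Pool.Agent.P8H87.Old.UniformHypergraphs
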